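import Pool.Agent.helper60.DB.SpecI

/-! Row bi:LG (MP_fb2c2a_nt): the square of the Legendre coefficients of `(1 + AX + BX²)^(-1/2)`. -/

set_option autoImplicit false

namespace Pool.Agent.helper60.DB

open Polynomial Finset Pool.Agent.helper60.DK

/-- the recursion for the coefficients of `(1 + AX + BX²)^(-1/2)` -/
theorem LG_rec (R : Type) [CommRing R] (A B : R) (y w : PowerSeries R)
    (hy : y ^ 2 = 1 + PowerSeries.C A * PowerSeries.X + PowerSeries.C B * PowerSeries.X ^ 2)
    (hw : w * y = 1) :
    2 * PowerSeries.coeff 1 w + A * PowerSeries.coeff 0 w = 0 ∧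
    ∀ n : ℕ, 2 * ((n : R) + 2) * PowerSeries.coeff (n + 2) w +
      (2 * (n : R) + 3) * A * PowerSeries.coeff (n + 1) w +
      2 * ((n : R) + 1) * B * PowerSeries.coeff n w = 0 := by
  have h1 : w * w * (1 + PowerSeries.C A * PowerSeries.X +
      PowerSeries.C B * (PowerSeries.X * PowerSeries.X)) = 1 := by
    linear_combination (-w * w) * hy + (w * y + 1) * hw
  have h2 := congrArg (PowerSeries.derivative R) h1
  simp only [Derivation.leibniz, map_add, Derivation.map_one_eq_zero, PowerSeries.derivative_C,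
    PowerSeries.derivative_X, smul_eq_mul] at h2
  set w' : PowerSeries R := PowerSeries.derivative R w with hw'
  have h3 : (w' + w') + (PowerSeries.C A * (PowerSeries.X * w') +
      PowerSeries.C A * (PowerSeries.X * w')) + (PowerSeries.C B * (PowerSeries.X *
        (PowerSeries.X * w')) + PowerSeries.C B * (PowerSeries.X * (PowerSeries.X * w'))) +
      PowerSeries.C A * w + (PowerSeries.C B * (PowerSeries.X * w) +
        PowerSeries.C B * (PowerSeries.X * w)) = 0 := by
    linear_combination y * h2 - (w * (PowerSeries.C A + 2 * PowerSeries.C B * PowerSeries.X) +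
      2 * (1 + PowerSeries.C A * PowerSeries.X +
        PowerSeries.C B * (PowerSeries.X * PowerSeries.X)) * w') * hw
  have hX : ∀ n : ℕ, PowerSeries.coeff n (PowerSeries.X * w') = (n : R) * PowerSeries.coeff n w := by
    intro n
    cases n with
    | zero => rw [PowerSeries.coeff_zero_X_mul, Nat.cast_zero, zero_mul]
    | succ n =>
      rw [PowerSeries.coeff_succ_X_mul, hw', PowerSeries.coeff_derivative]
      push_cast
      ring
  constructor
  · have h4 := congrArg (PowerSeries.coeff 0) h3
    simp only [map_add, PowerSeries.coeff_C_mul, PowerSeries.coeff_zero_X_mul, map_zero, mul_zero,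
      add_zero] at h4
    rw [hw', PowerSeries.coeff_derivative] at h4
    push_cast at h4
    linear_combination h4
  · intro n
    have h4 := congrArg (PowerSeries.coeff (n + 1)) h3
    simp only [map_add, PowerSeries.coeff_C_mul, map_zero] at h4
    rw [PowerSeries.coeff_succ_X_mul, PowerSeries.coeff_succ_X_mul, hX,
      PowerSeries.coeff_succ_X_mul, hw', PowerSeries.coeff_derivative,
      PowerSeries.coeff_derivative] at h4
    push_cast at h4
    linear_combination h4

theorem LG_Dz {F : Type} [Field F] (x : F) (n : ℕ) :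
    ((n : F) + 2) * aeval x (Dz (n + 2)) = (2 * (n : F) + 3) * (1 + 2 * x) * aeval x (Dz (n + 1)) -
      ((n : F) + 1) * aeval x (Dz n) := by
  have a1 := congrArg (aeval x) (rel_one n)
  have a2 := congrArg (aeval x) (rel_two (n + 1))
  simp only [map_mul, map_add, map_sub, map_one, aeval_X, map_ofNat, map_natCast] at a1 a2
  push_cast at a2
  linear_combination a1 - a2

theorem LG_fld (R : Type) [CommRing R] (A B : R) (w : PowerSeries R)
    (hr0 : 2 * PowerSeries.coeff 1 w + A * PowerSeries.coeff 0 w = 0)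
    (hr : ∀ n : ℕ, 2 * ((n : R) + 2) * PowerSeries.coeff (n + 2) w +
      (2 * (n : R) + 3) * A * PowerSeries.coeff (n + 1) w +
      2 * ((n : R) + 1) * B * PowerSeries.coeff n w = 0)
    (hw0 : PowerSeries.coeff 0 w = 1) (F : Type) [Field F] [CharZero F] (φ : R →+* F) (r : F)
    (hr2 : r ^ 2 = φ B) (hr1 : r ≠ 0) (n : ℕ) :
    φ (16 ^ n * (PowerSeries.coeff n w) ^ 2) =
      φ (∑ k ∈ range (n + 1), ((cc n k : ℤ) : R) * (A ^ 2 - 4 * B) ^ k * (16 * B) ^ (n - k)) := by
  obtain ⟨x, hx⟩ : ∃ x : F, φ A = -2 * r * (1 + 2 * x) :=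
    ⟨(-φ A / (2 * r) - 1) / 2, by field_simp; ring⟩
  have key : ∀ n : ℕ, φ (PowerSeries.coeff n w) = r ^ n * aeval x (Dz n) ∧
      φ (PowerSeries.coeff (n + 1) w) = r ^ (n + 1) * aeval x (Dz (n + 1)) := by
    intro n
    induction n with
    | zero =>
      constructor
      · rw [hw0, map_one, pow_zero, one_mul]
        simp [Dz]
      · have h1 := congrArg φ hr0
        rw [map_add, map_mul, map_mul, hw0, map_one, map_zero, map_ofNat, hx] at h1
        have h2 : aeval x (Dz (0 + 1)) = 1 + 2 * x := by
          simp [Dz, Finset.sum_range_succ, map_ofNat (aeval x : ℤ[X] →ₐ[ℤ] F) 2]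
        rw [h2]
        have h3 : (2 : F) ≠ 0 := two_ne_zero
        apply mul_left_cancel₀ h3
        change 2 * φ (PowerSeries.coeff 1 w) = _
        linear_combination h1
    | succ n ih =>
      obtain ⟨i1, i2⟩ := ih
      refine ⟨i2, ?_⟩
      have h1 := congrArg φ (hr n)
      simp only [map_add, map_mul, map_ofNat, map_natCast, map_one, map_zero] at h1
      rw [i1, i2, hx, ← hr2] at h1
      have h2 := LG_Dz x n
      have h3 : (2 : F) * ((n : F) + 2) ≠ 0 :=
        mul_ne_zero two_ne_zero (by exact_mod_cast (Nat.succ_ne_zero (n + 1)))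
      apply mul_left_cancel₀ h3
      change 2 * ((n : F) + 2) * φ (PowerSeries.coeff (n + 2) w) =
        2 * ((n : F) + 2) * (r ^ (n + 2) * aeval x (Dz (n + 2)))
      linear_combination h1 - (2 * r ^ (n + 2)) * h2
  have hc := congrArg (aeval x) (clausen n)
  rw [aeval_comp, map_pow] at hc
  have hC : ∀ z : F, aeval z (Cn n) = ∑ k ∈ range (n + 1), ((cc n k : ℤ) : F) * z ^ k := by
    intro z
    unfold Cn
    rw [map_sum]
    refine Finset.sum_congr rfl fun k _ => ?_
    rw [map_mul, map_pow, aeval_X, aeval_C]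
    simp
  have hz : (aeval x (X * (1 + X) : ℤ[X]) : F) * (16 * φ B) = φ A ^ 2 - 4 * φ B := by
    simp only [map_mul, map_add, aeval_X, map_one, hx, ← hr2]
    ring
  generalize (aeval x (X * (1 + X) : ℤ[X]) : F) = z at hc hz
  rw [map_mul, map_pow, map_pow, (key n).1, mul_pow, ← hc, hC, map_sum, ← pow_mul, mul_comm n 2,
    pow_mul, hr2, map_ofNat, ← mul_assoc, ← mul_pow, Finset.mul_sum]
  refine Finset.sum_congr rfl fun k hk => ?_
  have hk' : k ≤ n := Nat.lt_succ_iff.1 (Finset.mem_range.1 hk)
  simp only [map_mul, map_pow, map_intCast, map_sub, map_ofNat]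
  rw [← hz]
  obtain ⟨m, rfl⟩ := Nat.exists_eq_add_of_le hk'
  rw [Nat.add_sub_cancel_left]
  ring

theorem LG : LG_stmt := by
  intro R _ _ _ A B y w hB hy hy0 hw n
  obtain ⟨hr0, hr⟩ := LG_rec R A B y w hy hw
  have hw0 : PowerSeries.coeff 0 w = 1 := by
    have h1 := congrArg PowerSeries.constantCoeff hw
    rw [map_mul, hy0, mul_one, map_one] at h1
    rw [PowerSeries.coeff_zero_eq_constantCoeff_apply, h1]
  have hφ : Function.Injective ((algebraMap (FractionRing R) (AlgebraicClosure (FractionRing R))).comp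
      (algebraMap R (FractionRing R))) :=
    (algebraMap (FractionRing R) (AlgebraicClosure (FractionRing R))).injective.comp
      (IsFractionRing.injective R (FractionRing R))
  have hF0 : CharZero (AlgebraicClosure (FractionRing R)) := charZero_of_injective_ringHom hφ
  generalize ((algebraMap (FractionRing R) (AlgebraicClosure (FractionRing R))).comp
      (algebraMap R (FractionRing R))) = φ at hφ
  have hB' : φ B ≠ 0 := fun h => hB (hφ (by rw [h, map_zero]))
  obtain ⟨r, hr2⟩ := IsAlgClosed.exists_pow_nat_eq (φ B) (n := 2) (by norm_num)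
  have hr1 : r ≠ 0 := by
    rintro rfl
    rw [zero_pow (by norm_num)] at hr2
    exact hB' hr2.symm
  exact hφ (LG_fld R A B w hr0 hr hw0 _ φ r hr2 hr1 n)

end Pool.Agent.helper60.DB
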